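import Mathlib

set_option autoImplicit false

namespace Pool.Agent.MP_4cb515_nt

open Finset

/-- The part of `m` built from the primes `≤ k`. -/
def smoothPart (k m : ℕ) : ℕ :=
  ∏ p ∈ Finset.filter Nat.Prime (Finset.range (k + 1)), p ^ (Nat.factorization m p)

theorem smoothPart_ne_zero (k m : ℕ) : smoothPart k m ≠ 0 := by
  unfold smoothPart
  apply Finset.prod_ne_zero_iff.2
  intro p hp
  simp only [mem_filter, mem_range] at hp
  exact pow_ne_zero _ hp.2.ne_zero

theorem factorization_smoothPart (k m p : ℕ) (hp : p.Prime) :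
    (smoothPart k m).factorization p = if p ≤ k then m.factorization p else 0 := by
  unfold smoothPart
  rw [Nat.factorization_prod (by
    intro q hq
    simp only [mem_filter, mem_range] at hq
    exact pow_ne_zero _ hq.2.ne_zero)]
  rw [Finsupp.coe_finsetSum, Finset.sum_apply]
  have h1 : ∀ q ∈ Finset.filter Nat.Prime (Finset.range (k + 1)),
      (q ^ (m.factorization q)).factorization p = if q = p then m.factorization p else 0 := by
    intro q hq
    simp only [mem_filter, mem_range] at hq
    rw [hq.2.factorization_pow]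
    by_cases h : q = p
    · subst h; simp
    · simp [h]
  rw [Finset.sum_congr rfl h1, Finset.sum_ite_eq']
  by_cases h : p ≤ k
  · simp [h, hp]
  · simp [h]

/-- If the `k`-smooth parts multiply to `k!` then `p ∤ C(n+k,k)` for the primes `p ≤ k`. -/
theorem factorization_choose_eq_zero (n k p : ℕ) (hp : p.Prime) (hpk : p ≤ k)
    (hprod : ∏ i ∈ Finset.Icc 1 k, smoothPart k (n + i) = Nat.factorial k) :
    (Nat.choose (n + k) k).factorization p = 0 := by
  have h1 : (∏ i ∈ Finset.Icc 1 k, smoothPart k (n + i)).factorization p =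
      (Nat.factorial k).factorization p := by rw [hprod]
  rw [Nat.factorization_prod (fun i _ => smoothPart_ne_zero k (n + i)), Finsupp.coe_finsetSum,
    Finset.sum_apply] at h1
  have h2 : ∑ i ∈ Finset.Icc 1 k, (smoothPart k (n + i)).factorization p =
      ∑ i ∈ Finset.Icc 1 k, (n + i).factorization p := by
    apply Finset.sum_congr rfl
    intro i _
    rw [factorization_smoothPart k (n + i) p hp, if_pos hpk]
  rw [h2] at h1
  have h3 : ∏ i ∈ Finset.Icc 1 k, (n + i) = Nat.factorial k * Nat.choose (n + k) k := by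
    rw [← Nat.ascFactorial_eq_factorial_mul_choose, Nat.ascFactorial_eq_prod_range]
    have h5 : Finset.Icc 1 k = Finset.Ico 1 (k + 1) := by
      ext x
      simp only [mem_Icc, mem_Ico]
      omega
    rw [h5, Finset.prod_Ico_eq_prod_range]
    apply Finset.prod_congr (by simp)
    intro i _
    ring
  have h4 : (∏ i ∈ Finset.Icc 1 k, (n + i)).factorization p =
      (Nat.factorial k * Nat.choose (n + k) k).factorization p := by rw [h3]
  rw [Nat.factorization_prod (by
      intro i hi
      simp only [mem_Icc] at hi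
      omega), Finsupp.coe_finsetSum, Finset.sum_apply,
    Nat.factorization_mul (Nat.factorial_ne_zero k) (Nat.choose_pos (by omega)).ne'] at h4
  simp only [Finsupp.coe_add, Pi.add_apply] at h4
  omega

theorem no_carry (n k p j : ℕ) (hp : p.Prime) (hpk : p ≤ k) (hj : 1 ≤ j)
    (hprod : ∏ i ∈ Finset.Icc 1 k, smoothPart k (n + i) = Nat.factorial k) :
    k % p ^ j + n % p ^ j < p ^ j := by
  have h := factorization_choose_eq_zero n k p hp hpk hprod
  have hb : Nat.log p (n + k) < max (Nat.log p (n + k)) j + 1 := by omega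
  rw [Nat.factorization_choose' hp hb, Finset.card_eq_zero, Finset.filter_eq_empty_iff] at h
  have := @h j (by simp only [mem_Ico]; omega)
  omega

theorem factorization_le_log (n k p i : ℕ) (hp : p.Prime) (hpk : p ≤ k) (hi1 : 1 ≤ i) (hik : i ≤ k)
    (hprod : ∏ i ∈ Finset.Icc 1 k, smoothPart k (n + i) = Nat.factorial k) :
    (n + i).factorization p ≤ Nat.log p k := by
  by_contra hcon
  push Not at hcon
  set j := (n + i).factorization p with hj
  have hlt : k < p ^ j := Nat.lt_pow_of_log_lt hp.one_lt hcon
  have hdvd : p ^ j ∣ n + i := Nat.ordProj_dvd (n + i) p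
  have hc := no_carry n k p j hp hpk (by omega) hprod
  rw [Nat.mod_eq_of_lt hlt] at hc
  have h2 : (n + i) % p ^ j = 0 := Nat.mod_eq_zero_of_dvd hdvd
  rw [Nat.add_mod, Nat.mod_eq_of_lt (lt_of_le_of_lt hik hlt)] at h2
  have h3 : (n % p ^ j + i) % p ^ j = n % p ^ j + i := Nat.mod_eq_of_lt (by omega)
  rw [h3] at h2
  exact absurd (Nat.eq_zero_of_add_eq_zero h2).2 (by omega)

end Pool.Agent.MP_4cb515_nt
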